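import Pool.Agent.H32.N6W.Targets

set_option autoImplicit false

open Polynomial NumberField IsDedekindDomain Matrix Pool.Agent.H32.QC Pool.Agent.H34.N6
open Pool.Agent.H13.DEV Pool.Agent.H34.N6V Pool.Agent.H63.WT Pool.Agent.H32.N6W

namespace Pool.Agent.H49.N6W

private theorem sol_sq {L : Type} [Field L] {a b c u : L} (hu : u ≠ 0) (hc : c = a * (u * u)) :
    Sol c b ↔ Sol a b := by
  constructor
  · rintro ⟨x, y, z, hne, h⟩
    refine ⟨u * x, y, z, ?_, ?_⟩
    · rcases hne with h1 | h1 | h1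
      · exact Or.inl (mul_ne_zero hu h1)
      · exact Or.inr (Or.inl h1)
      · exact Or.inr (Or.inr h1)
    · rw [h, hc]; ring
  · rintro ⟨x, y, z, hne, h⟩
    refine ⟨x / u, y, z, ?_, ?_⟩
    · rcases hne with h1 | h1 | h1
      · exact Or.inl (div_ne_zero h1 hu)
      · exact Or.inr (Or.inl h1)
      · exact Or.inr (Or.inr h1)
    · rw [h, hc]; field_simp

private theorem hil_sq {L : Type} [Field L] {a b c : L} (hc0 : c ≠ 0) (ha0 : a ≠ 0)
    (hsq : IsSquare (c / a)) : hil c b = hil a b := by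
  obtain ⟨u, hu⟩ := hsq
  have hu0 : u ≠ 0 := by
    rintro rfl
    rw [mul_zero, div_eq_zero_iff] at hu
    rcases hu with h | h
    · exact hc0 h
    · exact ha0 h
  have hc : c = a * (u * u) := by
    rw [← hu]; field_simp
  have key : Sol c b = Sol a b := propext (sol_sq hu0 hc)
  unfold hil
  rw [key]

theorem pf_HPC (hDEC : T_DEC) (hHMS : T_HMS) (hHPM : T_HPM)
    (hOPV : Pool.Agent.H32.QC.T_OPV) : T_HPC := by
  intro k L _ _ _ _ _ P D e v A hP hG hPD hA
  classical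
  obtain ⟨T, _, w, p, hd⟩ := hDEC k L P e v hP hG
  choose φ hφc hφk hφs hφz using hd.ev
  -- evaluation maps
  have hψ : ∀ i, ∀ Q : (v.adicCompletion k)[X],
      eval₂RingHom (φ i) (ic (w i) e) Q = eval₂ (φ i) (ic (w i) e) Q := fun i Q => rfl
  have hform : ∀ B : (v.adicCompletion k)[X], hpr (P.map (ic v)) B (D.map (ic v)) =
      ∏ i, hil (eval₂ (φ i) (ic (w i) e) B) (eval₂ (φ i) (ic (w i) e) (D.map (ic v))) := by
    intro B
    rw [hd.prod, hHPM _ _ Finset.univ p B (D.map (ic v)) (fun i _ => (hd.irr i).1.ne_zero)]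
    refine Finset.prod_congr rfl fun i _ => ?_
    have h1 : hpr (p i) B (D.map (ic v)) = hm (p i) B (D.map (ic v)) := by
      unfold hpr
      rw [UniqueFactorizationMonoid.normalizedFactors_irreducible (hd.irr i).2,
        (hd.irr i).1.normalize_eq_self, Multiset.map_singleton, Multiset.prod_singleton]
    rw [h1]
    exact hHMS _ _ (eval₂RingHom (φ i) (ic (w i) e)) (p i) B (D.map (ic v)) (hφs i) (hφz i)
  have hAne : ∀ i, eval₂ (φ i) (ic (w i) e) A ≠ 0 := by
    intro i h0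
    obtain ⟨a, b, hab⟩ := hA
    have h1 : eval₂ (φ i) (ic (w i) e) (P.map (ic v)) = 0 := by
      rw [hφz i, hd.prod]
      exact Finset.dvd_prod_of_mem p (Finset.mem_univ i)
    have h2 := congrArg (eval₂RingHom (φ i) (ic (w i) e)) hab
    rw [map_add, map_mul, map_mul, map_one, hψ, hψ, hψ, hψ, h0, h1] at h2
    simp at h2
  have hloc : ∀ i, ∃ ε : ℝ, 0 < ε ∧ ∀ A' : (v.adicCompletion k)[X],
      A'.natDegree ≤ A.natDegree → (∀ l, ‖(A' - A).coeff l‖ < ε) →
      hil (eval₂ (φ i) (ic (w i) e) A') (eval₂ (φ i) (ic (w i) e) (D.map (ic v))) =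
      hil (eval₂ (φ i) (ic (w i) e) A) (eval₂ (φ i) (ic (w i) e) (D.map (ic v))) := by
    intro i
    obtain ⟨δ, hδ, hδ'⟩ := hOPV L (w i) _ (hAne i)
    set x := ic (w i) e with hx
    set M : ℝ := ∑ l ∈ Finset.range (A.natDegree + 1), ‖x‖ ^ l + 1 with hM
    have hM0 : 0 < M := by
      have : 0 ≤ ∑ l ∈ Finset.range (A.natDegree + 1), ‖x‖ ^ l :=
        Finset.sum_nonneg fun l _ => pow_nonneg (norm_nonneg x) l
      linarith
    obtain ⟨ε, hε, hε'⟩ := Metric.continuous_iff.1 (hφc i) 0 (δ / M) (div_pos hδ hM0)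
    refine ⟨ε, hε, fun A' hdeg hclose => ?_⟩
    have hdiff : ‖eval₂ (φ i) x A' - eval₂ (φ i) x A‖ < δ := by
      rw [← eval₂_sub, eval₂_eq_sum_range' (φ i) (n := A.natDegree + 1)
        (Nat.lt_succ_of_le ((natDegree_sub_le _ _).trans (max_le hdeg le_rfl)))]
      calc ‖∑ l ∈ Finset.range (A.natDegree + 1), φ i ((A' - A).coeff l) * x ^ l‖
          ≤ ∑ l ∈ Finset.range (A.natDegree + 1), ‖φ i ((A' - A).coeff l) * x ^ l‖ :=
            norm_sum_le _ _
        _ ≤ ∑ l ∈ Finset.range (A.natDegree + 1), (δ / M) * ‖x‖ ^ l := by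
            refine Finset.sum_le_sum fun l _ => ?_
            rw [norm_mul, norm_pow]
            refine mul_le_mul_of_nonneg_right ?_ (pow_nonneg (norm_nonneg x) l)
            have h3 := hε' ((A' - A).coeff l) (by rw [dist_zero_right]; exact hclose l)
            rw [map_zero, dist_zero_right] at h3
            exact h3.le
        _ = (δ / M) * (M - 1) := by rw [← Finset.mul_sum, hM]; ring
        _ < δ := by
            rw [div_mul_eq_mul_div, div_lt_iff₀ hM0]
            nlinarith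
    obtain ⟨h4, h5⟩ := hδ' _ hdiff
    exact hil_sq h4 (hAne i) h5
  choose ε hε hε' using hloc
  obtain ⟨ε₀, hε₀⟩ : ∃ ε₀ : ℝ, 0 < ε₀ ∧ ∀ i, ε₀ < ε i := by
    have h6 : ∀ᶠ t in nhdsWithin (0 : ℝ) (Set.Ioi 0), ∀ i, t < ε i :=
      Filter.eventually_all.2 fun i => by
        filter_upwards [Ioo_mem_nhdsGT (hε i)] with t ht using ht.2
    have h7 : ∀ᶠ t in nhdsWithin (0 : ℝ) (Set.Ioi 0), 0 < t :=
      eventually_mem_nhdsWithin
    obtain ⟨t, h8, h9⟩ := (h7.and h6).exists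
    exact ⟨t, h8, h9⟩
  refine ⟨ε₀, hε₀.1, fun A' hdeg hclose => ?_⟩
  rw [hform, hform]
  refine Finset.prod_congr rfl fun i _ => ?_
  exact hε' i A' hdeg fun l => (hclose l).trans (hε₀.2 i)

end Pool.Agent.H49.N6W
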